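import Pool.Agent.Helper66.NI.Stmts

open MeasureTheory Filter Topology
open scoped ENNReal

namespace Pool.Agent.Helper66.NI

section
variable {Ω : Type} [MeasurableSpace Ω] {μ : Measure Ω}

theorem bas_pow_int (a : Lp ℝ 4 μ) : Integrable (fun ω => (a ω) ^ 4) μ := by
  have h := (Lp.memLp a).integrable_norm_pow (p := 4) (by norm_num)
  refine h.congr (Eventually.of_forall fun ω => ?_)
  show ‖a ω‖ ^ 4 = (a ω) ^ 4
  rw [Real.norm_eq_abs]
  exact (by decide : Even 4).pow_abs _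

theorem bas_norm (a : Lp ℝ 4 μ) : ‖a‖ ^ 4 = ∫ ω, (a ω) ^ 4 ∂μ := by
  have h := (Lp.memLp a).eLpNorm_eq_integral_rpow_norm (by norm_num) (by norm_num)
  have hnn : 0 ≤ ∫ ω, ‖a ω‖ ^ (4 : ℝ≥0∞).toReal ∂μ := integral_nonneg fun ω => by positivity
  have h4 : (4 : ℝ≥0∞).toReal = ((4 : ℕ) : ℝ) := by norm_num
  rw [Lp.norm_def, h, ENNReal.toReal_ofReal (by positivity)]
  rw [← Real.rpow_natCast, ← Real.rpow_mul hnn, h4, inv_mul_cancel₀ (by norm_num), Real.rpow_one]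
  refine integral_congr_ae (Eventually.of_forall fun ω => ?_)
  show ‖a ω‖ ^ ((4 : ℕ) : ℝ) = (a ω) ^ 4
  rw [Real.rpow_natCast, Real.norm_eq_abs]
  exact (by decide : Even 4).pow_abs _

theorem bas_amgm (a b c d : ℝ) : |a * b * c * d| ≤ (a ^ 4 + b ^ 4 + c ^ 4 + d ^ 4) / 4 := by
  rw [abs_le]
  constructor
  · nlinarith [sq_nonneg (a ^ 2 - b ^ 2), sq_nonneg (c ^ 2 - d ^ 2), sq_nonneg (a * b + c * d),
      sq_nonneg (a * b - c * d)]
  · nlinarith [sq_nonneg (a ^ 2 - b ^ 2), sq_nonneg (c ^ 2 - d ^ 2), sq_nonneg (a * b + c * d),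
      sq_nonneg (a * b - c * d)]

theorem bas_int (a b c d : Lp ℝ 4 μ) : Integrable (fun ω => a ω * b ω * c ω * d ω) μ := by
  have hI := (((bas_pow_int a).add (bas_pow_int b)).add (bas_pow_int c)).add (bas_pow_int d)
  have hI4 := hI.div_const 4
  refine hI4.mono' ?_ (Eventually.of_forall fun ω => ?_)
  · exact (((Lp.aestronglyMeasurable a).mul (Lp.aestronglyMeasurable b)).mul
      (Lp.aestronglyMeasurable c)).mul (Lp.aestronglyMeasurable d)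
  · rw [Real.norm_eq_abs]
    exact bas_amgm _ _ _ _

theorem bas_zero (a b c d : Lp ℝ 4 μ) (h : a = 0 ∨ b = 0 ∨ c = 0 ∨ d = 0) :
    ∫ ω, |a ω * b ω * c ω * d ω| ∂μ = 0 := by
  have : ∀ e : Lp ℝ 4 μ, e = 0 → ∀ᵐ ω ∂μ, e ω = 0 := by
    rintro e rfl
    exact Lp.coeFn_zero ℝ 4 μ
  rw [integral_eq_zero_iff_of_nonneg (fun ω => abs_nonneg _) (bas_int a b c d).abs]
  rcases h with h | h | h | h
  all_goals
    filter_upwards [this _ h] with ω hω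
    simp [hω]

theorem bas_holder (a b c d : Lp ℝ 4 μ) :
    (∫ ω, |a ω * b ω * c ω * d ω| ∂μ) ≤ ‖a‖ * ‖b‖ * ‖c‖ * ‖d‖ := by
  by_cases hz : a = 0 ∨ b = 0 ∨ c = 0 ∨ d = 0
  · rw [bas_zero a b c d hz]; positivity
  push Not at hz
  obtain ⟨ha, hb, hc, hd⟩ := hz
  have pa : 0 < ‖a‖ := norm_pos_iff.2 ha
  have pb : 0 < ‖b‖ := norm_pos_iff.2 hb
  have pc : 0 < ‖c‖ := norm_pos_iff.2 hc
  have pd : 0 < ‖d‖ := norm_pos_iff.2 hd
  set P := ‖a‖ * ‖b‖ * ‖c‖ * ‖d‖ with hP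
  have hPpos : 0 < P := by positivity
  have hi : ∀ e : Lp ℝ 4 μ, 0 < ‖e‖ → ∫ ω, (e ω / ‖e‖) ^ 4 ∂μ = 1 := by
    intro e he
    simp_rw [div_pow]
    rw [integral_div, ← bas_norm e]
    exact div_self (by positivity)
  have hii : ∀ e : Lp ℝ 4 μ, Integrable (fun ω => (e ω / ‖e‖) ^ 4) μ := by
    intro e
    simp_rw [div_pow]
    exact (bas_pow_int e).div_const _
  have h1 : ∫ ω, |a ω * b ω * c ω * d ω| ∂μ ≤
      ∫ ω, P * (((a ω / ‖a‖) ^ 4 + (b ω / ‖b‖) ^ 4 + (c ω / ‖c‖) ^ 4 + (d ω / ‖d‖) ^ 4) / 4) ∂μ := by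
    refine integral_mono (bas_int a b c d).abs
      ((((((hii a).add (hii b)).add (hii c)).add (hii d)).div_const 4).const_mul P) fun ω => ?_
    show |a ω * b ω * c ω * d ω| ≤ P * (((a ω / ‖a‖) ^ 4 + (b ω / ‖b‖) ^ 4 +
      (c ω / ‖c‖) ^ 4 + (d ω / ‖d‖) ^ 4) / 4)
    have h2 : a ω * b ω * c ω * d ω =
        P * ((a ω / ‖a‖) * (b ω / ‖b‖) * (c ω / ‖c‖) * (d ω / ‖d‖)) := by
      rw [hP]
      field_simp
    rw [h2, abs_mul, abs_of_pos hPpos]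
    exact mul_le_mul_of_nonneg_left (bas_amgm _ _ _ _) hPpos.le
  refine h1.trans ?_
  have i2 : Integrable (fun ω => (a ω / ‖a‖) ^ 4 + (b ω / ‖b‖) ^ 4) μ := (hii a).add (hii b)
  have i3 : Integrable (fun ω => (a ω / ‖a‖) ^ 4 + (b ω / ‖b‖) ^ 4 + (c ω / ‖c‖) ^ 4) μ :=
    i2.add (hii c)
  rw [integral_const_mul, integral_div, integral_add i3 (hii d),
    integral_add i2 (hii c), integral_add (hii a) (hii b), hi a pa, hi b pb,
    hi c pc, hi d pd]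
  norm_num

end

theorem st_BAS : ST_BAS := by
  intro Ω _ μ
  exact ⟨bas_int, bas_norm, bas_holder⟩

end Pool.Agent.Helper66.NI
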