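import Pool.Agent.Helper66.NI.Stmts

open MeasureTheory Filter Topology
open scoped ENNReal

namespace Pool.Agent.Helper66.NI

theorem st_EXP (hB : ST_BAS) : ST_EXP := by
  intro Ω _ μ f g s
  obtain ⟨hint, hnorm, _⟩ := hB Ω μ
  have i4 : ∀ a : Lp ℝ 4 μ, Integrable (fun ω => (a ω) ^ 4) μ := fun a =>
    (hint a a a a).congr (Eventually.of_forall fun ω => by ring)
  have i31 : ∀ a b : Lp ℝ 4 μ, Integrable (fun ω => (a ω) ^ 3 * b ω) μ := fun a b =>
    (hint a a a b).congr (Eventually.of_forall fun ω => by ring)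
  have i22 : Integrable (fun ω => f ω * f ω * g ω * g ω) μ := hint f f g g
  have hae : ∀ᵐ ω ∂μ, ((f + s • g : Lp ℝ 4 μ) ω) ^ 4 =
      (f ω) ^ 4 + 4 * s * ((f ω) ^ 3 * g ω) + 6 * s ^ 2 * (f ω * f ω * g ω * g ω)
        + 4 * s ^ 3 * ((g ω) ^ 3 * f ω) + s ^ 4 * (g ω) ^ 4 := by
    filter_upwards [Lp.coeFn_add f (s • g), Lp.coeFn_smul s g] with ω h1 h2
    rw [h1, Pi.add_apply, h2, Pi.smul_apply, smul_eq_mul]
    ring
  have j1 : Integrable (fun ω => (f ω) ^ 4 + 4 * s * ((f ω) ^ 3 * g ω)) μ :=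
    (i4 f).add ((i31 f g).const_mul (4 * s))
  have j2 : Integrable (fun ω => (f ω) ^ 4 + 4 * s * ((f ω) ^ 3 * g ω) +
      6 * s ^ 2 * (f ω * f ω * g ω * g ω)) μ := j1.add (i22.const_mul (6 * s ^ 2))
  have j3 : Integrable (fun ω => (f ω) ^ 4 + 4 * s * ((f ω) ^ 3 * g ω) +
      6 * s ^ 2 * (f ω * f ω * g ω * g ω) + 4 * s ^ 3 * ((g ω) ^ 3 * f ω)) μ :=
    j2.add ((i31 g f).const_mul (4 * s ^ 3))
  rw [hnorm, integral_congr_ae hae, integral_add j3 ((i4 g).const_mul (s ^ 4)),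
    integral_add j2 ((i31 g f).const_mul (4 * s ^ 3)), integral_add j1 (i22.const_mul (6 * s ^ 2)),
    integral_add (i4 f) ((i31 f g).const_mul (4 * s)), integral_const_mul, integral_const_mul,
    integral_const_mul, integral_const_mul, ← hnorm, ← hnorm]
  rfl

end Pool.Agent.Helper66.NI
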