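import Pool.Agent.Helper66.NI.Stmts

open MeasureTheory Filter Topology
open scoped ENNReal

namespace Pool.Agent.Helper66.NI

section
variable {Ω : Type} [MeasurableSpace Ω] {μ : Measure Ω} [IsFiniteMeasure μ]

/-- atomless measures have sets of small positive measure -/
theorem half_small (hat : Atomless μ) (A : Set Ω) (hA : MeasurableSet A) (h0 : 0 < μ.real A)
    (n : ℕ) : ∃ B : Set Ω, B ⊆ A ∧ MeasurableSet B ∧ 0 < μ.real B ∧
      μ.real B ≤ μ.real A / 2 ^ n := by
  induction n with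
  | zero => exact ⟨A, subset_rfl, hA, h0, by simp⟩
  | succ n ih =>
    obtain ⟨B, hBA, hB, hB0, hBn⟩ := ih
    have hne : μ B ≠ 0 := fun h => by
      rw [measureReal_def, h] at hB0
      simp at hB0
    obtain ⟨C, hCB, hC, hC0, hC1⟩ := hat B hB hne
    have hsum : μ.real C + μ.real (B \ C) = μ.real B := by
      rw [measureReal_sdiff hCB hC]
      ring
    have p1 : 0 < μ.real C := by
      rw [measureReal_def]
      exact ENNReal.toReal_pos hC0 (measure_ne_top μ _)
    have p2 : 0 < μ.real (B \ C) := by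
      rw [measureReal_def]
      exact ENNReal.toReal_pos hC1 (measure_ne_top μ _)
    have e : μ.real A / 2 ^ (n + 1) = μ.real A / 2 ^ n / 2 := by
      rw [pow_succ, div_div]
    rcases le_total (μ.real C) (μ.real (B \ C)) with h | h
    · refine ⟨C, hCB.trans hBA, hC, p1, ?_⟩
      rw [e]
      linarith
    · refine ⟨B \ C, Set.sdiff_subset.trans hBA, hB.diff hC, p2, ?_⟩
      rw [e]
      linarith

theorem half_small' (hat : Atomless μ) (A : Set Ω) (hA : MeasurableSet A) (h0 : 0 < μ.real A)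
    (ε : ℝ) (hε : 0 < ε) : ∃ B : Set Ω, B ⊆ A ∧ MeasurableSet B ∧ 0 < μ.real B ∧
      μ.real B ≤ ε := by
  have hlim : Tendsto (fun n : ℕ => μ.real A / 2 ^ n) atTop (𝓝 0) := by
    have := (tendsto_pow_atTop_nhds_zero_of_lt_one (by norm_num : (0 : ℝ) ≤ 1 / 2)
      (by norm_num)).const_mul (μ.real A)
    simp only [mul_zero] at this
    refine this.congr fun n => ?_
    rw [one_div, inv_pow, div_eq_mul_inv]
  obtain ⟨n, hn⟩ := (hlim.eventually (gt_mem_nhds hε)).exists
  obtain ⟨B, h1, h2, h3, h4⟩ := half_small hat A hA h0 n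
  exact ⟨B, h1, h2, h3, h4.trans hn.le⟩

/-- greedy step -/
theorem half_step (A : Set Ω) (t : ℝ) (B : Set Ω) (hB : MeasurableSet B) (hBA : B ⊆ A)
    (hBt : μ.real B ≤ t) : ∃ B' : Set Ω, MeasurableSet B' ∧ B' ⊆ A ∧ μ.real B' ≤ t ∧ B ⊆ B' ∧
      ∀ C : Set Ω, MeasurableSet C → C ⊆ A \ B → μ.real B + μ.real C ≤ t →
        μ.real C ≤ 2 * (μ.real B' - μ.real B) := by
  set S : Set ℝ := {r | ∃ C : Set Ω, MeasurableSet C ∧ C ⊆ A \ B ∧ μ.real B + μ.real C ≤ t ∧
    r = μ.real C} with hS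
  have hne : S.Nonempty := ⟨0, ∅, MeasurableSet.empty, Set.empty_subset _, by simpa using hBt,
    by simp⟩
  have hbd : BddAbove S := by
    refine ⟨t - μ.real B, ?_⟩
    rintro r ⟨C, _, _, h, rfl⟩
    linarith
  have hex : ∃ C : Set Ω, MeasurableSet C ∧ C ⊆ A \ B ∧ μ.real B + μ.real C ≤ t ∧
      sSup S ≤ 2 * μ.real C := by
    by_cases hpos : 0 < sSup S
    · obtain ⟨r, ⟨C, h1, h2, h3, rfl⟩, hr⟩ := exists_lt_of_lt_csSup hne
        (show sSup S / 2 < sSup S by linarith)
      exact ⟨C, h1, h2, h3, by linarith⟩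
    · exact ⟨∅, MeasurableSet.empty, Set.empty_subset _, by simpa using hBt,
        by simpa using not_lt.1 hpos⟩
  obtain ⟨C, h1, h2, h3, h4⟩ := hex
  have hdisj : Disjoint B C := by
    rw [Set.disjoint_left]
    intro x hx hx'
    exact (h2 hx').2 hx
  have hm : μ.real (B ∪ C) = μ.real B + μ.real C := measureReal_union hdisj h1
  refine ⟨B ∪ C, hB.union h1, Set.union_subset hBA (h2.trans Set.sdiff_subset), ?_,
    Set.subset_union_left, ?_⟩
  · rw [hm]; exact h3
  · intro D hD hDs hDt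
    have : μ.real D ≤ sSup S := le_csSup hbd ⟨D, hD, hDs, hDt, rfl⟩
    rw [hm]
    linarith

theorem half_exists (hat : Atomless μ) (A : Set Ω) (hA : MeasurableSet A) (t : ℝ) (h0 : 0 ≤ t)
    (ht : t ≤ μ.real A) : ∃ B : Set Ω, B ⊆ A ∧ MeasurableSet B ∧ μ.real B = t := by
  classical
  let St := {B : Set Ω // MeasurableSet B ∧ B ⊆ A ∧ μ.real B ≤ t}
  have hstep : ∀ B : St, ∃ B' : St, B.1 ⊆ B'.1 ∧
      ∀ C : Set Ω, MeasurableSet C → C ⊆ A \ B.1 → μ.real B.1 + μ.real C ≤ t →
        μ.real C ≤ 2 * (μ.real B'.1 - μ.real B.1) := by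
    intro B
    obtain ⟨B', h1, h2, h3, h4, h5⟩ := half_step A t B.1 B.2.1 B.2.2.1 B.2.2.2
    exact ⟨⟨B', h1, h2, h3⟩, h4, h5⟩
  choose nx hnx using hstep
  let s : ℕ → St := fun n => nx^[n] ⟨∅, MeasurableSet.empty, Set.empty_subset _, by simpa using h0⟩
  have hs : ∀ n, s (n + 1) = nx (s n) := fun n => Function.iterate_succ_apply' nx n _
  have hmono : Monotone (fun n => (s n).1) := by
    refine monotone_nat_of_le_succ fun n => ?_
    show (s n).1 ⊆ (s (n + 1)).1
    rw [hs]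
    exact (hnx (s n)).1
  set U : Set Ω := ⋃ n, (s n).1 with hU
  have hUm : MeasurableSet U := MeasurableSet.iUnion fun n => (s n).2.1
  have hUA : U ⊆ A := Set.iUnion_subset fun n => (s n).2.2.1
  have hlim : Tendsto (fun n => μ.real (s n).1) atTop (𝓝 (μ.real U)) := by
    have h1 := tendsto_measure_iUnion_atTop (μ := μ) hmono
    exact (ENNReal.tendsto_toReal (measure_ne_top μ _)).comp h1
  have hUt : μ.real U ≤ t := le_of_tendsto hlim (Eventually.of_forall fun n => (s n).2.2.2)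
  refine ⟨U, hUA, hUm, ?_⟩
  by_contra hne
  have hlt : μ.real U < t := lt_of_le_of_ne hUt hne
  have hd : μ.real (A \ U) = μ.real A - μ.real U := measureReal_sdiff hUA hUm
  obtain ⟨C, hCA, hC, hC0, hCt⟩ := half_small' hat (A \ U) (hA.diff hUm) (by rw [hd]; linarith)
    (t - μ.real U) (by linarith)
  have hmle : ∀ n, μ.real (s n).1 ≤ μ.real U := fun n =>
    measureReal_mono (Set.subset_iUnion (fun n => (s n).1) n)
  have key : ∀ n, μ.real C ≤ 2 * (μ.real (s (n + 1)).1 - μ.real (s n).1) := by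
    intro n
    rw [hs]
    refine (hnx (s n)).2 C hC ?_ ?_
    · intro x hx
      exact ⟨(hCA hx).1, fun h => (hCA hx).2 (Set.mem_iUnion.2 ⟨n, h⟩)⟩
    · have := hmle n
      linarith
  have hz : Tendsto (fun n => 2 * (μ.real (s (n + 1)).1 - μ.real (s n).1)) atTop (𝓝 0) := by
    have h1 := (((tendsto_add_atTop_iff_nat 1).2 hlim).sub hlim).const_mul 2
    rw [sub_self, mul_zero] at h1
    exact h1
  have := ge_of_tendsto' hz key
  linarith

end

theorem st_HALF : ST_HALF := by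
  intro Ω _ μ _ hat A hA
  obtain ⟨B, hBA, hB, hBt⟩ := half_exists hat A hA (μ.real A / 2) (by positivity)
    (by have : 0 ≤ μ.real A := measureReal_nonneg
        linarith)
  refine ⟨B, hBA, hB, ?_⟩
  have h1 : μ.real (A \ B) = μ.real B := by
    rw [measureReal_sdiff hBA hB, hBt]
    ring
  rw [measureReal_def, measureReal_def] at h1
  exact ((ENNReal.toReal_eq_toReal_iff' (measure_ne_top μ _) (measure_ne_top μ _)).1 h1).symm

end Pool.Agent.Helper66.NI
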