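import Pool.Agent.Helper66.NI.Stmts

open MeasureTheory Filter Topology
open scoped ENNReal

namespace Pool.Agent.Helper66.NI

section
variable {Ω : Type} [MeasurableSpace Ω] {μ : Measure Ω} [IsFiniteMeasure μ]

theorem k_L1 (μ : Measure Ω) [IsFiniteMeasure μ] : ∃ C : ℝ, 0 ≤ C ∧ ∀ F : Lp ℝ 4 μ,
    Integrable F μ ∧ ∫ ω, |F ω| ∂μ ≤ C * ‖F‖ := by
  have hfin : (μ Set.univ ^ (1 / (1 : ℝ≥0∞).toReal - 1 / (4 : ℝ≥0∞).toReal)) ≠ ∞ :=
    ENNReal.rpow_ne_top_of_nonneg (by norm_num) (measure_ne_top μ _)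
  refine ⟨(μ Set.univ ^ (1 / (1 : ℝ≥0∞).toReal - 1 / (4 : ℝ≥0∞).toReal)).toReal,
    ENNReal.toReal_nonneg, fun F => ?_⟩
  have h14 : (1 : ℝ≥0∞) ≤ 4 := by norm_num
  have hI : Integrable F μ := memLp_one_iff_integrable.1 ((Lp.memLp F).mono_exponent h14)
  refine ⟨hI, ?_⟩
  have h1 := eLpNorm_le_eLpNorm_mul_rpow_measure_univ (μ := μ) h14 (Lp.aestronglyMeasurable F)
  have h2 : eLpNorm F 1 μ = ENNReal.ofReal (∫ ω, |F ω| ∂μ) := by
    rw [eLpNorm_one_eq_lintegral_enorm]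
    exact (ofReal_integral_norm_eq_lintegral_enorm hI).symm
  have h3 : ∫ ω, |F ω| ∂μ = (eLpNorm F 1 μ).toReal := by
    rw [h2, ENNReal.toReal_ofReal (integral_nonneg fun ω => abs_nonneg _)]
  rw [h3, Lp.norm_def, ← ENNReal.toReal_mul, mul_comm]
  exact ENNReal.toReal_mono (ENNReal.mul_ne_top (Lp.eLpNorm_ne_top F) hfin) h1

theorem k_coe (g : SimpleFunc Ω ℝ) : toL (μ := μ) g =ᵐ[μ] g :=
  MemLp.coeFn_toLp _

/-- uniform closeness of simple functions gives closeness in the norm -/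
theorem k_close (μ : Measure Ω) [IsFiniteMeasure μ] (g : SimpleFunc Ω (ℝ × ℝ))
    (M : ℕ → ℝ × ℝ → ℝ) (M' : ℝ × ℝ → ℝ)
    (h : ∀ p, Tendsto (fun n => M n p) atTop (𝓝 (M' p))) :
    Tendsto (fun n => toL (μ := μ) (g.map (M n))) atTop (𝓝 (toL (g.map M'))) := by
  rw [tendsto_iff_norm_sub_tendsto_zero]
  set c : ℝ := measureUnivNNReal μ ^ (4 : ℝ≥0∞).toReal⁻¹ with hc
  have hbd : ∀ n, ‖toL (μ := μ) (g.map (M n)) - toL (g.map M')‖ ≤
      c * ∑ p ∈ g.range, |M n p - M' p| := by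
    intro n
    refine Lp.norm_le_of_ae_bound (Finset.sum_nonneg fun p _ => abs_nonneg _) ?_
    filter_upwards [Lp.coeFn_sub (toL (μ := μ) (g.map (M n))) (toL (g.map M')),
      k_coe (μ := μ) (g.map (M n)), k_coe (μ := μ) (g.map M')] with ω h1 h2 h3
    rw [h1, Pi.sub_apply, h2, h3, SimpleFunc.map_apply, SimpleFunc.map_apply, Real.norm_eq_abs]
    exact Finset.single_le_sum (f := fun p => |M n p - M' p|) (fun p _ => abs_nonneg _)
      (g.mem_range_self ω)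
  refine squeeze_zero (fun n => norm_nonneg _) hbd ?_
  have hs : Tendsto (fun n => ∑ p ∈ g.range, |M n p - M' p|) atTop
      (𝓝 (∑ p ∈ g.range, |M' p - M' p|)) :=
    tendsto_finsetSum _ fun p _ => ((h p).sub_const (M' p)).abs
  have h0 : ∑ p ∈ g.range, |M' p - M' p| = 0 := Finset.sum_eq_zero fun p _ => by simp
  rw [h0] at hs
  have := hs.const_mul c
  rwa [mul_zero] at this

theorem k_simple_int (g : SimpleFunc Ω (ℝ × ℝ)) (H : ℝ × ℝ → ℝ) :
    Integrable (fun ω => H (g ω)) μ :=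
  (g.map H).integrable_of_isFiniteMeasure

theorem k_lim_int (g : SimpleFunc Ω (ℝ × ℝ)) (H : ℕ → ℝ × ℝ → ℝ) (H' : ℝ × ℝ → ℝ)
    (B : ℝ) (hB : ∀ n ω, |H n (g ω)| ≤ B)
    (h : ∀ p, Tendsto (fun n => H n p) atTop (𝓝 (H' p))) (F : ℕ → Lp ℝ 4 μ) (F' : Lp ℝ 4 μ)
    (hF : Tendsto F atTop (𝓝 F')) :
    Tendsto (fun n => ∫ ω, H n (g ω) * F n ω ∂μ) atTop (𝓝 (∫ ω, H' (g ω) * F' ω ∂μ)) := by
  obtain ⟨C, hC, hCF⟩ := k_L1 μ
  have hmeas : ∀ n, AEStronglyMeasurable (fun ω => H n (g ω)) μ := fun n =>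
    (k_simple_int g (H n)).aestronglyMeasurable
  have hi : ∀ n (G : Lp ℝ 4 μ), Integrable (fun ω => H n (g ω) * G ω) μ := fun n G =>
    (hCF G).1.bdd_mul (hmeas n) (Eventually.of_forall fun ω => by
      rw [Real.norm_eq_abs]; exact hB n ω)
  have t1 : Tendsto (fun n => ∫ ω, H n (g ω) * F' ω ∂μ) atTop
      (𝓝 (∫ ω, H' (g ω) * F' ω ∂μ)) := by
    refine tendsto_integral_of_dominated_convergence (fun ω => B * |F' ω|)
      (fun n => (hi n F').aestronglyMeasurable) ((hCF F').1.abs.const_mul B) (fun n => ?_) ?_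
    · refine Eventually.of_forall fun ω => ?_
      rw [Real.norm_eq_abs, abs_mul]
      exact mul_le_mul_of_nonneg_right (hB n ω) (abs_nonneg _)
    · exact Eventually.of_forall fun ω => (h (g ω)).mul_const _
  have t2 : Tendsto (fun n => (∫ ω, H n (g ω) * F n ω ∂μ) - ∫ ω, H n (g ω) * F' ω ∂μ) atTop
      (𝓝 0) := by
    have hb : ∀ n, ‖(∫ ω, H n (g ω) * F n ω ∂μ) - ∫ ω, H n (g ω) * F' ω ∂μ‖ ≤
        |B| * (C * ‖F n - F'‖) := by
      intro n
      rw [← integral_sub (hi n _) (hi n _)]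
      refine (norm_integral_le_integral_norm _).trans ?_
      have h1 : ∫ ω, ‖H n (g ω) * F n ω - H n (g ω) * F' ω‖ ∂μ ≤
          ∫ ω, |B| * |(F n - F' : Lp ℝ 4 μ) ω| ∂μ := by
        refine integral_mono_ae ((hi n _).sub (hi n _)).norm ((hCF _).1.abs.const_mul _) ?_
        filter_upwards [Lp.coeFn_sub (F n) F'] with ω hω
        rw [hω, Pi.sub_apply, ← mul_sub, Real.norm_eq_abs, abs_mul]
        exact mul_le_mul_of_nonneg_right ((hB n ω).trans (le_abs_self B)) (abs_nonneg _)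
      refine h1.trans ?_
      rw [integral_const_mul]
      exact mul_le_mul_of_nonneg_left (hCF _).2 (abs_nonneg _)
    have hz : Tendsto (fun n => |B| * (C * ‖F n - F'‖)) atTop (𝓝 0) := by
      have := ((tendsto_iff_norm_sub_tendsto_zero.1 hF).const_mul C).const_mul |B|
      rwa [mul_zero, mul_zero] at this
    exact squeeze_zero_norm hb hz
  have := t2.add t1
  rw [zero_add] at this
  refine this.congr fun n => ?_
  ring

end

theorem st_K (hKD : ST_KD) : ST_K := by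
  intro Ω _ μ _ T hT V hV g u v θ hθ
  obtain ⟨C, hC, hCF⟩ := k_L1 μ
  let k : ℕ → ℝ × ℝ → ℕ := fun n p => ⌊2 ^ n * θ p⌋₊
  let w : ℕ → ℝ × ℝ → ℝ := fun n p => (k n p : ℝ) / 2 ^ n
  have h2 : ∀ n : ℕ, (0 : ℝ) < 2 ^ n := fun n => by positivity
  have hk : ∀ n p, k n p ≤ 2 ^ n := by
    intro n p
    have h1 : ⌊2 ^ n * θ p⌋₊ ≤ ⌊((2 ^ n : ℕ) : ℝ)⌋₊ := by
      refine Nat.floor_le_floor ?_
      push_cast
      have := (hθ p).2
      nlinarith [h2 n]
    rwa [Nat.floor_natCast] at h1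
  have hw0 : ∀ n p, 0 ≤ w n p := fun n p => by positivity
  have hw1 : ∀ n p, w n p ≤ 1 := by
    intro n p
    show (k n p : ℝ) / 2 ^ n ≤ 1
    rw [div_le_one (h2 n)]
    exact_mod_cast hk n p
  have hwlim : ∀ p, Tendsto (fun n => w n p) atTop (𝓝 (θ p)) := by
    intro p
    have hlow : ∀ n, θ p - (1 / 2) ^ n ≤ w n p := by
      intro n
      have h3 : 2 ^ n * θ p < (k n p : ℝ) + 1 := Nat.lt_floor_add_one _
      show θ p - (1 / 2) ^ n ≤ (k n p : ℝ) / 2 ^ n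
      rw [le_div_iff₀ (h2 n), sub_mul, ← mul_pow]
      norm_num
      linarith
    have hup : ∀ n, w n p ≤ θ p := by
      intro n
      have h3 : (k n p : ℝ) ≤ 2 ^ n * θ p := Nat.floor_le (mul_nonneg (h2 n).le (hθ p).1)
      show (k n p : ℝ) / 2 ^ n ≤ θ p
      rw [div_le_iff₀ (h2 n)]
      linarith
    have hz : Tendsto (fun n : ℕ => θ p - (1 / 2) ^ n) atTop (𝓝 (θ p)) := by
      have := (tendsto_pow_atTop_nhds_zero_of_lt_one (by norm_num : (0 : ℝ) ≤ 1 / 2)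
        (by norm_num)).const_sub (θ p)
      rwa [sub_zero] at this
    exact tendsto_of_tendsto_of_tendsto_of_le_of_le hz tendsto_const_nhds hlow hup
  have hmix : ∀ x y : ℝ × ℝ → ℝ, ∀ p, Tendsto (fun n => w n p * x p + (1 - w n p) * y p) atTop
      (𝓝 (θ p * x p + (1 - θ p) * y p)) := fun x y p =>
    ((hwlim p).mul_const _).add (((hwlim p).const_sub 1).mul_const _)
  have hmixb : ∀ x y : ℝ × ℝ → ℝ, ∃ B : ℝ, ∀ n ω,
      |w n (g ω) * x (g ω) + (1 - w n (g ω)) * y (g ω)| ≤ B := by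
    intro x y
    refine ⟨∑ p ∈ g.range, (|x p| + |y p|), fun n ω => ?_⟩
    have h3 : |w n (g ω) * x (g ω) + (1 - w n (g ω)) * y (g ω)| ≤ |x (g ω)| + |y (g ω)| := by
      refine (abs_add_le _ _).trans ?_
      rw [abs_mul, abs_mul, abs_of_nonneg (hw0 n _),
        abs_of_nonneg (show 0 ≤ 1 - w n (g ω) by linarith [hw1 n (g ω)])]
      have p1 := mul_le_mul_of_nonneg_right (hw1 n (g ω)) (abs_nonneg (x (g ω)))
      have p2 := mul_le_mul_of_nonneg_right (show 1 - w n (g ω) ≤ 1 by linarith [hw0 n (g ω)])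
        (abs_nonneg (y (g ω)))
      linarith
    refine h3.trans ?_
    exact Finset.single_le_sum (f := fun p => |x p| + |y p|)
      (fun p _ => add_nonneg (abs_nonneg _) (abs_nonneg _)) (g.mem_range_self ω)
  have hL : Tendsto (fun n => T (toL (g.map (fun p => w n p * u p + (1 - w n p) * v p)))) atTop
      (𝓝 (T (toL (g.map (fun p => θ p * u p + (1 - θ p) * v p))))) :=
    (T.continuous.tendsto _).comp (k_close μ g _ _ (hmix u v))
  obtain ⟨B1, hB1⟩ := hmixb (fun p => u p ^ 3) (fun p => v p ^ 3)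
  obtain ⟨B2, hB2⟩ := hmixb (fun p => u p ^ 4) (fun p => v p ^ 4)
  have c1 := k_lim_int (μ := μ) g (fun n p => w n p * u p ^ 3 + (1 - w n p) * v p ^ 3)
    (fun p => θ p * u p ^ 3 + (1 - θ p) * v p ^ 3) B1 hB1
    (hmix (fun p => u p ^ 3) (fun p => v p ^ 3)) _ _ hL
  have c2 : Tendsto (fun n => ∫ ω, (w n (g ω) * u (g ω) ^ 4 + (1 - w n (g ω)) * v (g ω) ^ 4) ∂μ)
      atTop (𝓝 (∫ ω, (θ (g ω) * u (g ω) ^ 4 + (1 - θ (g ω)) * v (g ω) ^ 4) ∂μ)) := by
    refine tendsto_integral_of_dominated_convergence (fun _ => B2)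
      (fun n => (k_simple_int g (fun p => w n p * u p ^ 4 +
        (1 - w n p) * v p ^ 4)).aestronglyMeasurable) (integrable_const _) (fun n => ?_) ?_
    · exact Eventually.of_forall fun ω => by rw [Real.norm_eq_abs]; exact hB2 n ω
    · exact Eventually.of_forall fun ω => hmix (fun p => u p ^ 4) (fun p => v p ^ 4) (g ω)
  exact le_of_tendsto_of_tendsto' c1.abs (c2.const_mul V)
    (fun n => hKD Ω μ T hT V hV g u v n (k n) (hk n))

end Pool.Agent.Helper66.NI
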