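import Pool.Agent.Helper66.NI.Stmts

open MeasureTheory Filter Topology
open scoped ENNReal

namespace Pool.Agent.Helper66.NI

section
variable {Ω : Type} [MeasurableSpace Ω] {μ : Measure Ω} [IsFiniteMeasure μ]

theorem spl1_ind_congr {A B : Set Ω} (hA : MeasurableSet A) (hB : MeasurableSet B) (h : A = B) :
    ind μ hA = ind μ hB := by
  subst h
  rfl

theorem spl1_ind_union {A B : Set Ω} (hA : MeasurableSet A) (hB : MeasurableSet B)
    (hd : Disjoint A B) : ind μ (hA.union hB) = ind μ hA + ind μ hB :=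
  indicatorConstLp_disjoint_union hA hB (measure_ne_top μ _) (measure_ne_top μ _) hd 1

/-- splitting on a level set of a simple function -/
theorem spl1_piece (T : Lp ℝ 4 μ →L[ℝ] Lp ℝ 4 μ) (hT : Narrow T) (s : SimpleFunc Ω ℝ)
    (c : ℝ) (A : Set Ω) (hA : MeasurableSet A) (hc : ∀ ω ∈ A, s ω = c) (ε : ℝ) (hε : 0 < ε) :
    ∃ (B : Set Ω) (hB : MeasurableSet B), B ⊆ A ∧ μ.real B = 1 / 2 * μ.real A ∧
      ‖T (ind μ hB) - (1 / 2 : ℝ) • T (ind μ hA)‖ ≤ ε ∧
      (∫ ω in B, s ω ∂μ) = 1 / 2 * ∫ ω in A, s ω ∂μ := by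
  obtain ⟨B, C, hB, hC, hU, hd, hm, hn⟩ := hT A hA ε hε
  have hBA : B ⊆ A := hU ▸ Set.subset_union_left
  have hreal : μ.real B = 1 / 2 * μ.real A := by
    have h1 : μ.real A = μ.real B + μ.real C := by
      rw [← hU, measureReal_union hd hC]
    have h2 : μ.real B = μ.real C := by
      rw [measureReal_def, measureReal_def, hm]
    rw [h1, ← h2]
    ring
  refine ⟨B, hB, hBA, hreal, ?_, ?_⟩
  · have h1 : ind μ hA = ind μ hB + ind μ hC := by
      rw [← spl1_ind_union hB hC hd]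
      exact spl1_ind_congr _ _ hU.symm
    have h2 : T (ind μ hB) - (1 / 2 : ℝ) • T (ind μ hA) =
        (1 / 2 : ℝ) • T (ind μ hB - ind μ hC) := by
      rw [h1, map_add, map_sub]
      module
    rw [h2, norm_smul]
    have h3 : ‖T (ind μ hB - ind μ hC)‖ < ε := hn
    rw [Real.norm_of_nonneg (by norm_num)]
    have := norm_nonneg (T (ind μ hB - ind μ hC))
    linarith
  · have h1 : ∫ ω in B, s ω ∂μ = ∫ ω in B, c ∂μ :=
      setIntegral_congr_fun hB fun ω hω => hc ω (hBA hω)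
    have h2 : ∫ ω in A, s ω ∂μ = ∫ ω in A, c ∂μ :=
      setIntegral_congr_fun hA fun ω hω => hc ω hω
    rw [h1, h2, setIntegral_const, setIntegral_const, hreal, smul_eq_mul, smul_eq_mul]
    ring

theorem spl1_simple (T : Lp ℝ 4 μ →L[ℝ] Lp ℝ 4 μ) (hT : Narrow T) (s : SimpleFunc Ω ℝ)
    (A : Set Ω) (hA : MeasurableSet A) (ε : ℝ) (hε : 0 < ε) (F : Finset ℝ) :
    ∃ (A' : Set Ω) (hA' : MeasurableSet A') (B : Set Ω) (hB : MeasurableSet B),
      A' = A ∩ s ⁻¹' (F : Set ℝ) ∧ B ⊆ A' ∧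
      μ.real B = 1 / 2 * μ.real A' ∧
      ‖T (ind μ hB) - (1 / 2 : ℝ) • T (ind μ hA')‖ ≤ F.card * ε ∧
      (∫ ω in B, s ω ∂μ) = 1 / 2 * ∫ ω in A', s ω ∂μ := by
  classical
  induction F using Finset.induction_on with
  | empty =>
    refine ⟨∅, MeasurableSet.empty, ∅, MeasurableSet.empty, by simp, subset_rfl, by simp, ?_,
      by simp⟩
    have : ind μ (MeasurableSet.empty : MeasurableSet (∅ : Set Ω)) = 0 := indicatorConstLp_empty
    rw [this]
    simp
  | insert c F hc ih =>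
    obtain ⟨A', hA', B, hB, e, h1, h2, h3, h4⟩ := ih
    have hAc : MeasurableSet (A ∩ s ⁻¹' {c}) := hA.inter (s.measurableSet_preimage _)
    obtain ⟨B', hB', k1, k2, k3, k4⟩ := spl1_piece T hT s c (A ∩ s ⁻¹' {c}) hAc
      (fun ω hω => hω.2) ε hε
    have hd : Disjoint A' (A ∩ s ⁻¹' {c}) := by
      rw [Set.disjoint_left, e]
      rintro ω ⟨_, h5⟩ ⟨_, h6⟩
      have h7 : s ω = c := h6
      have h8 : s ω ∈ F := h5
      rw [h7] at h8
      exact hc h8
    have hdB : Disjoint B B' := hd.mono h1 k1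
    have hint : Integrable s μ := s.integrable_of_isFiniteMeasure
    refine ⟨A' ∪ (A ∩ s ⁻¹' {c}), hA'.union hAc, B ∪ B', hB.union hB', ?_,
      Set.union_subset_union h1 k1, ?_, ?_, ?_⟩
    · rw [e]
      ext ω
      simp only [Set.mem_union, Set.mem_inter_iff, Set.mem_preimage, Finset.coe_insert,
        Set.mem_insert_iff, Set.mem_singleton_iff]
      tauto
    · rw [measureReal_union hdB hB', measureReal_union hd hAc, h2, k2]
      ring
    · rw [spl1_ind_union hB hB' hdB, spl1_ind_union hA' hAc hd, map_add, map_add,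
        Finset.card_insert_of_notMem hc]
      have e1 : T (ind μ hB) + T (ind μ hB') - (1 / 2 : ℝ) • (T (ind μ hA') + T (ind μ hAc)) =
          (T (ind μ hB) - (1 / 2 : ℝ) • T (ind μ hA')) +
          (T (ind μ hB') - (1 / 2 : ℝ) • T (ind μ hAc)) := by module
      rw [e1]
      refine (norm_add_le _ _).trans ?_
      push_cast
      linarith
    · rw [setIntegral_union hdB hB' hint.integrableOn hint.integrableOn,
        setIntegral_union hd hAc hint.integrableOn hint.integrableOn, h4, k4]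
      ring

end

theorem st_SPL1 : ST_SPL1 := by
  intro Ω _ μ _ T hT φ hφ A hA ε hε
  have hφ1 : MemLp φ 1 μ := memLp_one_iff_integrable.2 hφ
  obtain ⟨s, hs, hsm⟩ := hφ1.exists_simpleFunc_eLpNorm_sub_lt (by norm_num)
    (ε := ENNReal.ofReal (ε / 2)) (by
      rw [Ne, ENNReal.ofReal_eq_zero, not_le]
      linarith)
  have hsi : Integrable s μ := s.integrable_of_isFiniteMeasure
  have hdi : Integrable (fun ω => φ ω - s ω) μ := hφ.sub hsi
  have hL1 : ∫ ω, |φ ω - s ω| ∂μ < ε / 2 := by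
    have h1 : eLpNorm (φ - (s : Ω → ℝ)) 1 μ = ENNReal.ofReal (∫ ω, |φ ω - s ω| ∂μ) := by
      rw [eLpNorm_one_eq_lintegral_enorm]
      have := ofReal_integral_norm_eq_lintegral_enorm hdi
      rw [show (∫ ω, |φ ω - s ω| ∂μ) = ∫ ω, ‖φ ω - s ω‖ ∂μ from rfl, this]
      rfl
    rw [h1] at hs
    exact (ENNReal.ofReal_lt_ofReal_iff (by linarith)).1 hs
  have hN : (0 : ℝ) ≤ (s.range.card : ℝ) := Nat.cast_nonneg _
  obtain ⟨A', hA', B, hB, e, h1, h2, h3, h4⟩ := spl1_simple T hT s A hA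
    (ε / 2 / (s.range.card + 1)) (div_pos (by linarith) (by linarith)) s.range
  have e' : A' = A := by
    rw [e]
    refine Set.inter_eq_left.2 fun ω _ => ?_
    show s ω ∈ ((s.range : Finset ℝ) : Set ℝ)
    exact Finset.mem_coe.2 (s.mem_range_self ω)
  subst e'
  refine ⟨B, hB, h1, h2, ?_, ?_⟩
  · refine lt_of_le_of_lt h3 ?_
    have h5 : (s.range.card : ℝ) * (ε / 2 / (s.range.card + 1)) ≤ ε / 2 := by
      rw [mul_div_assoc', div_le_iff₀ (by linarith)]
      nlinarith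
    linarith
  · have hset : ∀ C : Set Ω, MeasurableSet C → |∫ ω in C, (φ ω - s ω) ∂μ| < ε / 2 := by
      intro C hC
      have h5 : |∫ ω in C, (φ ω - s ω) ∂μ| ≤ ∫ ω in C, |φ ω - s ω| ∂μ :=
        abs_integral_le_integral_abs
      have h6 : ∫ ω in C, |φ ω - s ω| ∂μ ≤ ∫ ω, |φ ω - s ω| ∂μ :=
        setIntegral_le_integral hdi.abs (Eventually.of_forall fun ω => abs_nonneg _)
      linarith
    have hsub : ∀ C : Set Ω, (∫ ω in C, (φ ω - s ω) ∂μ) =
        (∫ ω in C, φ ω ∂μ) - ∫ ω in C, s ω ∂μ := fun C =>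
      integral_sub hφ.integrableOn hsi.integrableOn
    have k1 := hset B hB
    have k2 := hset A' hA'
    rw [hsub] at k1 k2
    rw [abs_lt] at k1 k2 ⊢
    constructor <;> linarith [k1.1, k1.2, k2.1, k2.2]

end Pool.Agent.Helper66.NI
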