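import Pool.Agent.Helper66.NI.Stmts

open MeasureTheory Filter Topology
open scoped ENNReal

namespace Pool.Agent.Helper66.NI

theorem spl2_ind_congr {Ω : Type} [MeasurableSpace Ω] {μ : Measure Ω} [IsFiniteMeasure μ]
    {A B : Set Ω} (hA : MeasurableSet A) (hB : MeasurableSet B) (h : A = B) :
    ind μ hA = ind μ hB := by
  subst h
  rfl

theorem spl2_ind_union {Ω : Type} [MeasurableSpace Ω] {μ : Measure Ω} [IsFiniteMeasure μ]
    {A B : Set Ω} (hA : MeasurableSet A) (hB : MeasurableSet B)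
    (hd : Disjoint A B) : ind μ (hA.union hB) = ind μ hA + ind μ hB :=
  indicatorConstLp_disjoint_union hA hB (measure_ne_top μ _) (measure_ne_top μ _) hd 1

theorem st_SPL2 (h1 : ST_SPL1) : ST_SPL2 := by
  intro Ω _ μ _ T hT φ hφ n
  induction n with
  | zero =>
    intro k hk A hA ε hε
    have hk' : k = 0 ∨ k = 1 := by
      have : k ≤ 1 := by simpa using hk
      omega
    rcases hk' with rfl | rfl
    · refine ⟨∅, MeasurableSet.empty, Set.empty_subset _, by simp, ?_, by simpa using hε⟩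
      have : ind μ (MeasurableSet.empty : MeasurableSet (∅ : Set Ω)) = 0 := indicatorConstLp_empty
      rw [this]
      simpa using hε
    · exact ⟨A, hA, subset_rfl, by simp, by simpa using hε, by simpa using hε⟩
  | succ n ih =>
    intro k hk A hA ε hε
    obtain ⟨P, hP, hPA, hPm, hPT, hPφ⟩ := h1 Ω μ T hT φ hφ A hA (ε / 4) (by linarith)
    have hQ : MeasurableSet (A \ P) := hA.diff hP
    have hPQ : Disjoint P (A \ P) := Set.disjoint_sdiff_right
    have hAe : P ∪ (A \ P) = A := Set.union_sdiff_cancel hPA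
    have hindA : ind μ hA = ind μ hP + ind μ hQ := by
      rw [← spl2_ind_union hP hQ hPQ]
      exact spl2_ind_congr _ _ hAe.symm
    have hQm : μ.real (A \ P) = 1 / 2 * μ.real A := by
      rw [measureReal_sdiff hPA hP, hPm]
      ring
    have hint : ∀ C : Set Ω, IntegrableOn φ C μ := fun C => hφ.integrableOn
    have hφA : ∫ ω in A, φ ω ∂μ = (∫ ω in P, φ ω ∂μ) + ∫ ω in A \ P, φ ω ∂μ := by
      rw [← setIntegral_union hPQ hQ (hint _) (hint _), hAe]
    have hpow : (2 : ℝ) ^ (n + 1) = 2 ^ n * 2 := pow_succ _ _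
    have h2pos : (0 : ℝ) < 2 ^ n := by positivity
    by_cases hk2 : k ≤ 2 ^ n
    · obtain ⟨B, hB, hBP, hBm, hBT, hBφ⟩ := ih k hk2 P hP (ε / 4) (by linarith)
      have hw0 : (0 : ℝ) ≤ (k : ℝ) / 2 ^ n := by positivity
      have hw1 : (k : ℝ) / 2 ^ n ≤ 1 := by
        rw [div_le_one h2pos]
        exact_mod_cast hk2
      set w : ℝ := (k : ℝ) / 2 ^ n with hw
      have hw2 : (k : ℝ) / 2 ^ (n + 1) = w / 2 := by
        rw [hpow, hw, div_div]
      refine ⟨B, hB, hBP.trans hPA, ?_, ?_, ?_⟩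
      · rw [hw2, hBm, hPm]
        ring
      · rw [hw2]
        have e : T (ind μ hB) - (w / 2) • T (ind μ hA) =
            (T (ind μ hB) - w • T (ind μ hP)) +
              w • (T (ind μ hP) - (1 / 2 : ℝ) • T (ind μ hA)) := by module
        rw [e]
        refine lt_of_le_of_lt (norm_add_le _ _) ?_
        rw [norm_smul, Real.norm_of_nonneg hw0]
        have : w * ‖T (ind μ hP) - (1 / 2 : ℝ) • T (ind μ hA)‖ ≤ 1 * (ε / 4) :=
          mul_le_mul hw1 hPT.le (norm_nonneg _) (by norm_num)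
        linarith
      · rw [hw2]
        have e : (∫ ω in B, φ ω ∂μ) - w / 2 * ∫ ω in A, φ ω ∂μ =
            ((∫ ω in B, φ ω ∂μ) - w * ∫ ω in P, φ ω ∂μ) +
              w * ((∫ ω in P, φ ω ∂μ) - 1 / 2 * ∫ ω in A, φ ω ∂μ) := by ring
        rw [e]
        refine lt_of_le_of_lt (abs_add_le _ _) ?_
        rw [abs_mul, abs_of_nonneg hw0]
        have : w * |(∫ ω in P, φ ω ∂μ) - 1 / 2 * ∫ ω in A, φ ω ∂μ| ≤ 1 * (ε / 4) :=
          mul_le_mul hw1 hPφ.le (abs_nonneg _) (by norm_num)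
        linarith
    · have hk3 : k - 2 ^ n ≤ 2 ^ n := by
        have : 2 ^ (n + 1) = 2 ^ n * 2 := pow_succ 2 n
        omega
      obtain ⟨B, hB, hBQ, hBm, hBT, hBφ⟩ := ih (k - 2 ^ n) hk3 (A \ P) hQ (ε / 4) (by linarith)
      have hkc : ((k - 2 ^ n : ℕ) : ℝ) = (k : ℝ) - 2 ^ n := by
        rw [Nat.cast_sub (by omega)]
        push_cast
        ring
      have hw0 : (0 : ℝ) ≤ ((k - 2 ^ n : ℕ) : ℝ) / 2 ^ n := by positivity
      have hw1 : ((k - 2 ^ n : ℕ) : ℝ) / 2 ^ n ≤ 1 := by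
        rw [div_le_one h2pos]
        exact_mod_cast hk3
      have hw2 : (k : ℝ) / 2 ^ (n + 1) = (1 + ((k - 2 ^ n : ℕ) : ℝ) / 2 ^ n) / 2 := by
        rw [hpow, hkc]
        field_simp
        ring
      set w : ℝ := ((k - 2 ^ n : ℕ) : ℝ) / 2 ^ n with hw
      have hPB : Disjoint P B := hPQ.mono_right hBQ
      refine ⟨P ∪ B, hP.union hB, Set.union_subset hPA (hBQ.trans Set.sdiff_subset), ?_, ?_, ?_⟩
      · rw [hw2, measureReal_union hPB hB, hBm, hPm, hQm]
        ring
      · rw [hw2, spl2_ind_union hP hB hPB, map_add]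
        have hTQ : T (ind μ hQ) = T (ind μ hA) - T (ind μ hP) := by
          rw [hindA, map_add]
          abel
        have e : T (ind μ hP) + T (ind μ hB) - ((1 + w) / 2) • T (ind μ hA) =
            (T (ind μ hB) - w • T (ind μ hQ)) +
              (1 - w) • (T (ind μ hP) - (1 / 2 : ℝ) • T (ind μ hA)) := by
          rw [hTQ]
          module
        rw [e]
        refine lt_of_le_of_lt (norm_add_le _ _) ?_
        rw [norm_smul, Real.norm_of_nonneg (by linarith)]
        have : (1 - w) * ‖T (ind μ hP) - (1 / 2 : ℝ) • T (ind μ hA)‖ ≤ 1 * (ε / 4) :=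
          mul_le_mul (by linarith) hPT.le (norm_nonneg _) (by norm_num)
        linarith
      · rw [hw2, setIntegral_union hPB hB (hint _) (hint _)]
        have e : (∫ ω in P, φ ω ∂μ) + (∫ ω in B, φ ω ∂μ) - (1 + w) / 2 * ∫ ω in A, φ ω ∂μ =
            ((∫ ω in B, φ ω ∂μ) - w * ∫ ω in A \ P, φ ω ∂μ) +
              (1 - w) * ((∫ ω in P, φ ω ∂μ) - 1 / 2 * ∫ ω in A, φ ω ∂μ) := by
          rw [hφA]
          ring
        rw [e]
        refine lt_of_le_of_lt (abs_add_le _ _) ?_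
        rw [abs_mul, abs_of_nonneg (show (0 : ℝ) ≤ 1 - w by linarith)]
        have : (1 - w) * |(∫ ω in P, φ ω ∂μ) - 1 / 2 * ∫ ω in A, φ ω ∂μ| ≤ 1 * (ε / 4) :=
          mul_le_mul (by linarith) hPφ.le (abs_nonneg _) (by norm_num)
        linarith

end Pool.Agent.Helper66.NI
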